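import Mathlib

/-!
# Perfect images of weakly theta-refinable spaces are weakly theta-refinable

No separation axioms are used. Let `f : X → Y` be perfect, `U` an open cover of `Y` and let
`V n` be the families of open sets of `X` given by the weak theta-refinability of `X` for the cover
by the preimages. For a finite set `S` of indices let `C S` be the closed set of the points which
are in no member of `V m` for `m` in `S`, and let `G S n j` be the closed set of the points of
`C S` which are in at most `j` members of `V n`.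

* A compactness argument along `n = 0, 1, 2, ...` gives for every fibre `K` some `S`, `n`, `j`
  such that `K` meets `G S n (j + 1)` and misses `G S n j`: every point of `K ∩ G S n (j + 1)` is in
  exactly `j + 1` members of `V n`.
* Hence only finitely many sets of `j + 1` members of `V n` are realised at points of
  `K ∩ G S n (j + 1)`, and the set `PP y` of these sets can only decrease near `y` (among the points
  of the same type `S, n, j`). Sorting by the number of elements of `PP y` we get countably many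
  relatively discrete families, and from them the required open families on `Y`.
-/

set_option autoImplicit false

open Set Topology

namespace Pool.Agent.Results.MP_55e6a3_gt.PerfectImage

universe u v

/-- A space is weakly theta-refinable if every open cover `U` has an open refinement which is a
union of countably many families `V n` such that every point `x` lies in at least one and only
finitely many members of some `V n`. -/
def WeaklyThetaRefinable (X : Type u) [TopologicalSpace X] : Prop :=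
  ∀ U : Set (Set X), (∀ o ∈ U, IsOpen o) → ⋃₀ U = Set.univ →
    ∃ V : ℕ → Set (Set X), (∀ n, ∀ o ∈ V n, IsOpen o ∧ ∃ w ∈ U, o ⊆ w) ∧
      ∀ x, ∃ n, {o | o ∈ V n ∧ x ∈ o}.Nonempty ∧ {o | o ∈ V n ∧ x ∈ o}.Finite

section

variable {X : Type u} {Y : Type v} [TopologicalSpace X] [TopologicalSpace Y]

/-- the members of `V n` at `x` -/
def P (V : ℕ → Set (Set X)) (n : ℕ) (x : X) : Set (Set X) := {o | o ∈ V n ∧ x ∈ o}

/-- the points in no member of `V m`, `m ∈ S` -/
def C (V : ℕ → Set (Set X)) (S : Finset ℕ) : Set X := {x | ∀ m ∈ S, ¬ (P V m x).Nonempty}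

/-- the points of `C V S` in at most `j` members of `V n` -/
def G (V : ℕ → Set (Set X)) (S : Finset ℕ) (n j : ℕ) : Set X :=
  {x | x ∈ C V S ∧ (P V n x).encard ≤ (j : ℕ∞)}

lemma isOpen_W (V : ℕ → Set (Set X)) (hV : ∀ n, ∀ o ∈ V n, IsOpen o) (n : ℕ) :
    IsOpen {x | (P V n x).Nonempty} := by
  have : {x | (P V n x).Nonempty} = ⋃₀ V n := by
    ext x
    constructor
    · rintro ⟨o, ho, hx⟩
      exact ⟨o, ho, hx⟩
    · rintro ⟨o, ho, hx⟩
      exact ⟨o, ho, hx⟩
  rw [this]
  exact isOpen_sUnion (hV n)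

lemma isClosed_C (V : ℕ → Set (Set X)) (hV : ∀ n, ∀ o ∈ V n, IsOpen o) (S : Finset ℕ) :
    IsClosed (C V S) := by
  have : C V S = ⋂ m ∈ S, {x | (P V m x).Nonempty}ᶜ := by
    ext x
    simp [C]
  rw [this]
  exact isClosed_biInter fun m _ => (isOpen_W V hV m).isClosed_compl

lemma isOpen_inter (V : ℕ → Set (Set X)) (hV : ∀ n, ∀ o ∈ V n, IsOpen o) (n : ℕ)
    (t : Set (Set X)) (ht : t.Finite) (htV : t ⊆ V n) : IsOpen (⋂₀ t) :=
  ht.isOpen_sInter fun o ho => hV n o (htV ho)

lemma isClosed_G (V : ℕ → Set (Set X)) (hV : ∀ n, ∀ o ∈ V n, IsOpen o) (S : Finset ℕ)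
    (n j : ℕ) : IsClosed (G V S n j) := by
  have h1 : IsOpen {x | (j : ℕ∞) < (P V n x).encard} := by
    rw [isOpen_iff_mem_nhds]
    intro x hx
    have hx' : ((j + 1 : ℕ) : ℕ∞) ≤ (P V n x).encard := by
      have : (j : ℕ∞) + 1 ≤ (P V n x).encard := Order.add_one_le_of_lt hx
      simpa using this
    obtain ⟨t, htP, htc⟩ := Set.exists_subset_encard_eq hx'
    have htf : t.Finite := by
      apply Set.finite_of_encard_eq_coe htc
    have hto : IsOpen (⋂₀ t) := isOpen_inter V hV n t htf (fun o ho => (htP ho).1)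
    refine Filter.mem_of_superset (hto.mem_nhds ?_) ?_
    · intro o ho
      exact (htP ho).2
    · intro z hz
      have hsub : t ⊆ P V n z := fun o ho => ⟨(htP ho).1, hz o ho⟩
      have := Set.encard_le_encard hsub
      rw [htc] at this
      refine lt_of_lt_of_le ?_ this
      exact_mod_cast Nat.lt_succ_self j
  have h2 : G V S n j = C V S ∩ {x | (j : ℕ∞) < (P V n x).encard}ᶜ := by
    ext x
    simp [G]
  rw [h2]
  exact (isClosed_C V hV S).inter h1.isClosed_compl

lemma G_zero (V : ℕ → Set (Set X)) (S : Finset ℕ) (n : ℕ) (x : X) :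
    x ∈ G V S n 0 ↔ x ∈ C V S ∧ ¬ (P V n x).Nonempty := by
  simp only [G, mem_ofPred_eq, Nat.cast_zero, nonpos_iff_eq_zero, Set.encard_eq_zero,
    Set.not_nonempty_iff_eq_empty]

/-- The compactness argument. -/
lemma types (V : ℕ → Set (Set X)) (hV : ∀ n, ∀ o ∈ V n, IsOpen o)
    (hfin : ∀ x, ∃ n, (P V n x).Nonempty ∧ (P V n x).Finite)
    (K : Set X) (hK : IsCompact K) (hne : K.Nonempty) :
    ∃ (S : Finset ℕ) (n j : ℕ), (K ∩ G V S n (j + 1)).Nonempty ∧ K ∩ G V S n j = ∅ := by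
  classical
  -- first step
  have key : ∃ (S : Finset ℕ) (n j : ℕ), (K ∩ G V S n j).Nonempty ∧
      ∀ x ∈ K ∩ C V S, (P V n x).Nonempty := by
    by_contra hcon
    push Not at hcon
    let F : ℕ → Finset ℕ := fun n => Nat.rec ∅
      (fun n S => if ∀ x ∈ K ∩ C V S, (P V n x).Nonempty then S else insert n S) n
    have hF0 : F 0 = ∅ := rfl
    have hF1 : ∀ n, F (n + 1) =
        if ∀ x ∈ K ∩ C V (F n), (P V n x).Nonempty then F n else insert n (F n) := fun n => rfl
    have hmono1 : ∀ n, F n ⊆ F (n + 1) := by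
      intro n
      rw [hF1]
      split_ifs
      · exact subset_rfl
      · exact Finset.subset_insert _ _
    have hmono : Monotone F := monotone_nat_of_le_succ hmono1
    have hFne : ∀ n, (K ∩ C V (F n)).Nonempty := by
      intro n
      induction n with
      | zero =>
        obtain ⟨x, hx⟩ := hne
        exact ⟨x, hx, by rw [hF0]; simp [C]⟩
      | succ n ih =>
        rw [hF1]
        split_ifs with hc
        · exact ih
        · push Not at hc
          obtain ⟨x, hx, hxn⟩ := hc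
          refine ⟨x, hx.1, ?_⟩
          intro m hm
          rcases Finset.mem_insert.1 hm with h | h
          · rw [h, hxn]
            exact Set.not_nonempty_empty
          · exact hx.2 m h
    have hCanti : ∀ S T : Finset ℕ, S ⊆ T → C V T ⊆ C V S := fun S T hST x hx m hm =>
      hx m (hST hm)
    obtain ⟨x, hxK, hx⟩ := hK.inter_iInter_nonempty (fun i => C V (F i))
      (fun i => isClosed_C V hV _) (by
        intro u
        obtain ⟨x, hx⟩ := hFne (u.sup id)
        refine ⟨x, hx.1, ?_⟩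
        simp only [mem_iInter]
        intro i hi
        exact hCanti _ _ (hmono (Finset.le_sup (f := id) hi)) hx.2)
    simp only [mem_iInter] at hx
    obtain ⟨n, hn1, hn2⟩ := hfin x
    have hxn := hx (n + 1)
    rw [hF1] at hxn
    split_ifs at hxn with hc
    · obtain ⟨j, hj⟩ : ∃ j : ℕ, (P V n x).encard = j := by
        exact ⟨hn2.toFinset.card, hn2.encard_eq_coe_toFinset_card⟩
      obtain ⟨z, hz, hz'⟩ := hcon (F n) n j ⟨x, hxK, hxn, hj.le⟩
      have := hc z hz
      rw [hz'] at this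
      exact Set.not_nonempty_empty this
    · exact hxn n (Finset.mem_insert_self _ _) hn1
  obtain ⟨S, n, j, hj, hS⟩ := key
  have hex : ∃ j, (K ∩ G V S n j).Nonempty := ⟨j, hj⟩
  have hspec := Nat.find_spec hex
  have hpos : Nat.find hex ≠ 0 := by
    intro h0
    rw [h0] at hspec
    obtain ⟨x, hxK, hxG⟩ := hspec
    rw [G_zero] at hxG
    exact hxG.2 (hS x ⟨hxK, hxG.1⟩)
  obtain ⟨i, hi⟩ := Nat.exists_eq_succ_of_ne_zero hpos
  refine ⟨S, n, i, ?_, ?_⟩
  · rw [hi] at hspec
    exact hspec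
  · by_contra hcon
    exact Nat.find_min hex (m := i) (by omega) (Set.nonempty_iff_ne_empty.2 hcon)

/-- the realised sets of members -/
def PP (V : ℕ → Set (Set X)) (f : X → Y) (S : Finset ℕ) (n j : ℕ) (y : Y) :
    Set (Set (Set X)) :=
  {Q | ∃ x ∈ f ⁻¹' {y} ∩ G V S n (j + 1), Q = P V n x}

/-- the points of type `S, n, j` -/
def YS (V : ℕ → Set (Set X)) (f : X → Y) (S : Finset ℕ) (n j : ℕ) : Set Y :=
  {y | (f ⁻¹' {y} ∩ G V S n (j + 1)).Nonempty ∧ f ⁻¹' {y} ∩ G V S n j = ∅}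

/-- the neighbourhood of `y` -/
def O (V : ℕ → Set (Set X)) (f : X → Y) (S : Finset ℕ) (n j : ℕ) (y : Y) : Set Y :=
  {z | f ⁻¹' {z} ∩ G V S n (j + 1) ⊆ ⋃ Q ∈ PP V f S n j y, ⋂₀ Q}

lemma encard_eq (V : ℕ → Set (Set X)) (f : X → Y) (S : Finset ℕ) (n j : ℕ) (y : Y)
    (hy : y ∈ YS V f S n j) (x : X) (hx : x ∈ f ⁻¹' {y} ∩ G V S n (j + 1)) :
    (P V n x).encard = ((j + 1 : ℕ) : ℕ∞) := by
  apply le_antisymm hx.2.2
  by_contra hcon
  push Not at hcon
  have h1 : (P V n x).encard ≤ (j : ℕ∞) := by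
    apply Order.le_of_lt_add_one
    simpa using hcon
  have : x ∈ f ⁻¹' {y} ∩ G V S n j := ⟨hx.1, hx.2.1, h1⟩
  rw [hy.2] at this
  exact this

lemma P_eq (V : ℕ → Set (Set X)) (n j : ℕ) (x z : X)
    (hx : (P V n x).encard = ((j + 1 : ℕ) : ℕ∞)) (hz : (P V n z).encard = ((j + 1 : ℕ) : ℕ∞))
    (h : P V n x ⊆ P V n z) : P V n x = P V n z := by
  have hfin : (P V n x).Finite := Set.finite_of_encard_eq_coe hx
  exact hfin.eq_of_subset_of_encard_le h (by rw [hx, hz])

lemma PP_finite (V : ℕ → Set (Set X)) (hV : ∀ n, ∀ o ∈ V n, IsOpen o) (f : X → Y)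
    (hfc : ∀ y, IsCompact (f ⁻¹' {y})) (S : Finset ℕ) (n j : ℕ) (y : Y)
    (hy : y ∈ YS V f S n j) : (PP V f S n j y).Finite := by
  classical
  have hc : IsCompact (f ⁻¹' {y} ∩ G V S n (j + 1)) :=
    (hfc y).inter_right (isClosed_G V hV S n (j + 1))
  obtain ⟨t, ht1, ht2⟩ := hc.elim_nhds_subcover (fun x => ⋂₀ P V n x) (by
    intro x hx
    have hfin : (P V n x).Finite := Set.finite_of_encard_eq_coe (encard_eq V f S n j y hy x hx)
    exact (isOpen_inter V hV n _ hfin (fun o ho => ho.1)).mem_nhds (fun o ho => ho.2))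
  refine (t.finite_toSet.image (P V n)).subset ?_
  rintro Q ⟨x, hx, rfl⟩
  obtain ⟨z, hz, hxz⟩ := mem_iUnion₂.1 (ht2 hx)
  refine ⟨z, hz, ?_⟩
  exact P_eq V n j z x (encard_eq V f S n j y hy z (ht1 z hz)) (encard_eq V f S n j y hy x hx)
    (fun o ho => ⟨ho.1, hxz o ho⟩)

lemma isOpen_O (V : ℕ → Set (Set X)) (hV : ∀ n, ∀ o ∈ V n, IsOpen o) (f : X → Y)
    (hf : IsClosedMap f) (S : Finset ℕ) (n j : ℕ) (y : Y)
    (hy : y ∈ YS V f S n j) : IsOpen (O V f S n j y) := by
  have h1 : IsOpen (⋃ Q ∈ PP V f S n j y, ⋂₀ Q) := by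
    apply isOpen_biUnion
    rintro Q ⟨x, hx, rfl⟩
    have hfin : (P V n x).Finite := Set.finite_of_encard_eq_coe (encard_eq V f S n j y hy x hx)
    exact isOpen_inter V hV n _ hfin (fun o ho => ho.1)
  have h2 : O V f S n j y = (f '' (G V S n (j + 1) ∩ (⋃ Q ∈ PP V f S n j y, ⋂₀ Q)ᶜ))ᶜ := by
    ext z
    constructor
    · rintro hz ⟨x, ⟨hx1, hx2⟩, rfl⟩
      exact hx2 (hz ⟨rfl, hx1⟩)
    · intro hz x hx
      by_contra hcon
      exact hz ⟨x, ⟨hx.2, hcon⟩, hx.1⟩
  rw [h2]
  exact (hf _ ((isClosed_G V hV S n (j + 1)).inter h1.isClosed_compl)).isOpen_compl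

lemma mem_O (V : ℕ → Set (Set X)) (f : X → Y) (S : Finset ℕ) (n j : ℕ) (y : Y) :
    y ∈ O V f S n j y := by
  intro x hx
  exact mem_iUnion₂.2 ⟨P V n x, ⟨x, hx, rfl⟩, fun o ho => ho.2⟩

lemma PP_anti (V : ℕ → Set (Set X)) (f : X → Y) (S : Finset ℕ) (n j : ℕ) (y z : Y)
    (hy : y ∈ YS V f S n j) (hz : z ∈ YS V f S n j) (hzO : z ∈ O V f S n j y) :
    PP V f S n j z ⊆ PP V f S n j y := by
  rintro Q ⟨x, hx, rfl⟩
  obtain ⟨R, ⟨w, hw, rfl⟩, hxR⟩ := mem_iUnion₂.1 (hzO hx)
  refine ⟨w, hw, ?_⟩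
  symm
  exact P_eq V n j w x (encard_eq V f S n j y hy w hw) (encard_eq V f S n j z hz x hx)
    (fun o ho => ⟨ho.1, hxR o ho⟩)

/-- the union of the neighbourhoods of the points with a given set `PP` -/
def VQ (V : ℕ → Set (Set X)) (f : X → Y) (S : Finset ℕ) (n j : ℕ) (Q : Set (Set (Set X))) :
    Set Y :=
  ⋃ y ∈ {y | y ∈ YS V f S n j ∧ PP V f S n j y = Q}, O V f S n j y

/-- the open families on `Y` -/
def Fam (V : ℕ → Set (Set X)) (f : X → Y) (w : Set X → Set Y) (S : Finset ℕ) (n j r : ℕ) :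
    Set (Set Y) :=
  {o | ∃ Q : Set (Set (Set X)), Q.encard = (r : ℕ∞) ∧ ∃ a ∈ ⋃₀ Q, a ∈ V n ∧
    o = VQ V f S n j Q ∩ w a}

end

/-- Perfect images of weakly theta-refinable spaces are weakly theta-refinable (no separation
axioms): if `f : X → Y` is a continuous closed surjection with compact fibres and `X` is weakly
theta-refinable, then so is `Y`. -/
theorem result :
    ∀ (X : Type u) (Y : Type v) [TopologicalSpace X] [TopologicalSpace Y] (f : X → Y),
      Continuous f → Function.Surjective f → IsClosedMap f →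
      (∀ y, IsCompact (f ⁻¹' {y})) → WeaklyThetaRefinable X → WeaklyThetaRefinable Y := by
  classical
  intro X Y _ _ f hcont hsurj hclosed hfc hX U hU hcov
  obtain ⟨V, hV1, hV2⟩ := hX ((fun o => f ⁻¹' o) '' U)
    (by
      rintro _ ⟨o, ho, rfl⟩
      exact (hU o ho).preimage hcont)
    (by
      apply eq_univ_of_forall
      intro x
      have : f x ∈ ⋃₀ U := by rw [hcov]; trivial
      obtain ⟨o, ho, hx⟩ := this
      exact ⟨f ⁻¹' o, ⟨o, ho, rfl⟩, hx⟩)
  have hV : ∀ n, ∀ o ∈ V n, IsOpen o := fun n o ho => (hV1 n o ho).1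
  have hw : ∀ a : Set X, ∃ b : Set Y, (∃ n, a ∈ V n) → b ∈ U ∧ a ⊆ f ⁻¹' b := by
    intro a
    by_cases h : ∃ n, a ∈ V n
    · obtain ⟨n, hn⟩ := h
      obtain ⟨-, _, ⟨b, hb, rfl⟩, hab⟩ := hV1 n a hn
      exact ⟨b, fun _ => ⟨hb, hab⟩⟩
    · exact ⟨∅, fun h' => absurd h' h⟩
  choose w hw using hw
  obtain ⟨e, he⟩ := exists_surjective_nat (Finset ℕ × ℕ × ℕ × ℕ)
  refine ⟨fun i => Fam V f w (e i).1 (e i).2.1 (e i).2.2.1 (e i).2.2.2, ?_, ?_⟩
  · rintro i o ⟨Q, -, a, -, ha, rfl⟩
    refine ⟨IsOpen.inter ?_ (hU _ (hw a ⟨_, ha⟩).1), w a, (hw a ⟨_, ha⟩).1, inter_subset_right⟩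
    apply isOpen_biUnion
    rintro y ⟨hy, -⟩
    exact isOpen_O V hV f hclosed _ _ _ y hy
  · intro y
    obtain ⟨S, n, j, h1, h2⟩ := types V hV (fun x => hV2 x) (f ⁻¹' {y}) (hfc y)
      (by
        obtain ⟨x, hx⟩ := hsurj y
        exact ⟨x, hx⟩)
    have hy : y ∈ YS V f S n j := ⟨h1, h2⟩
    have hfin := PP_finite V hV f hfc S n j y hy
    obtain ⟨r, hr⟩ : ∃ r : ℕ, (PP V f S n j y).encard = r :=
      ⟨hfin.toFinset.card, hfin.encard_eq_coe_toFinset_card⟩
    obtain ⟨i, hi⟩ := he (S, n, j, r)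
    refine ⟨i, ?_, ?_⟩
    · obtain ⟨x, hx⟩ := h1
      have hxc := encard_eq V f S n j y hy x hx
      have hne : (P V n x).Nonempty := by
        rw [← Set.encard_pos, hxc]
        exact_mod_cast Nat.succ_pos j
      obtain ⟨a, ha⟩ := hne
      refine ⟨VQ V f S n j (PP V f S n j y) ∩ w a, ?_, ?_, ?_⟩
      · simp only [hi]
        exact ⟨PP V f S n j y, hr, a, ⟨P V n x, ⟨x, hx, rfl⟩, ha⟩, ha.1, rfl⟩
      · exact mem_biUnion (x := y) ⟨hy, rfl⟩ (mem_O V f S n j y)
      · have := (hw a ⟨n, ha.1⟩).2 ha.2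
        rw [mem_preimage, hx.1] at this
        exact this
    · have hfin2 : (⋃₀ PP V f S n j y).Finite := by
        apply hfin.sUnion
        rintro Q ⟨x, hx, rfl⟩
        exact Set.finite_of_encard_eq_coe (encard_eq V f S n j y hy x hx)
      refine (hfin2.image (fun a => VQ V f S n j (PP V f S n j y) ∩ w a)).subset ?_
      rintro o ⟨ho, hyo⟩
      simp only [hi] at ho
      obtain ⟨Q, hQ, a, haQ, haV, rfl⟩ := ho
      obtain ⟨z, ⟨hz1, hz2⟩, hyz⟩ := mem_iUnion₂.1 hyo.1
      have hsub := PP_anti V f S n j z y hz1 hy hyz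
      rw [hz2] at hsub
      have heq : PP V f S n j y = Q := hfin.eq_of_subset_of_encard_le hsub (by rw [hQ, hr])
      rw [← heq]
      refine ⟨a, ?_, rfl⟩
      rw [heq]
      exact haQ

end Pool.Agent.Results.MP_55e6a3_gt.PerfectImage
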